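import Pool.Agent.Y502.PC.Count

set_option autoImplicit false

/-!
# Principal translatable full AFLs above every bounded language which do not contain `Alg`

Given a bounded language `K` we use a recursive language whose words of level `l` are words of `K`,
words of blocks `s^j p`, `s^j q` with `j ≥ l` starting with a block with `j > l`, and products of
words `(s^l p)^n F (s^l q)^n` with `n ≥ 1` and `F` of level `l + 1`. Its cone is translatable and a
full AFL, because level `l + 1` is an encoding of level `l`. For every language in the cone the
number of the words of length at most `n` which are determined by a word on their right is at most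
polynomial in `n`.
-/

namespace Pool.Agent.Results.MP_ead56d_lc.BoundedLanguages

open Pool.Agent.Helper288.Cone
open scoped Computability

/-- A family of languages over finite alphabets: `F X L` says that the language `L` over the finite
alphabet `X` belongs to the family. -/
abbrev Family := ∀ (X : Type) [Finite X], Language X → Prop

/-- `F` is closed under rational transductions (in Nivat form). -/
def IsRationalCone (F : Family) : Prop :=
  ∀ (X Y : Type) [Finite X] [Finite Y] (L : Language X) (N : Language Y),
    F X L → InCone L N → F Y N

/-- `F` contains a language `L` and is contained in every rational cone containing `L`. (Together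
with `IsRationalCone F` this says `F = T(L)`.) -/
def IsPrincipal (F : Family) : Prop :=
  ∃ (X : Type) (_ : Finite X) (L : Language X), F X L ∧
    ∀ G : Family, IsRationalCone G → G X L →
      ∀ (Y : Type) [Finite Y] (N : Language Y), F Y N → G Y N

/-- If `L` over `X` is in `F`, `X` is included in `Y` and `a`, `b` are two different letters of `Y`
outside of `X`, then `{a^n f b^n : n ≥ 1, f ∈ L}` is in `F`. -/
def Translatable (F : Family) : Prop :=
  ∀ (X Y : Type) [Finite X] [Finite Y] (ι : X → Y) (a b : Y) (L : Language X),
    Function.Injective ι → a ∉ Set.range ι → b ∉ Set.range ι → a ≠ b → F X L →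
      F Y {w | ∃ n, 1 ≤ n ∧ ∃ f ∈ L, w = List.replicate n a ++ f.map ι ++ List.replicate n b}

/-- `F` is closed under product. -/
def ProductClosed (F : Family) : Prop :=
  ∀ (X : Type) [Finite X] (L₁ L₂ : Language X), F X L₁ → F X L₂ → F X (L₁ * L₂)

/-- `F` is closed under union. -/
def UnionClosed (F : Family) : Prop :=
  ∀ (X : Type) [Finite X] (L₁ L₂ : Language X), F X L₁ → F X L₂ → F X (L₁ + L₂)

/-- `F` is closed under the Kleene star. -/
def StarClosed (F : Family) : Prop :=
  ∀ (X : Type) [Finite X] (L : Language X), F X L → F X L∗

/-- The language `{u c ũ : u ∈ {0,1}*}` of marked palindromes; `c` is `none` and `ũ` is the mirror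
image of `u`. -/
def MarkedPal : Language (Option Bool) :=
  {w | ∃ u : List Bool, w = u.map some ++ none :: (u.map some).reverse}

/-- `F` is a principal and translatable rational cone which is closed under product, union and
star, contains a nonempty language, and does not contain the language of marked palindromes. -/
structure Small (F : Family) : Prop where
  cone : IsRationalCone F
  principal : IsPrincipal F
  translatable : Translatable F
  product : ProductClosed F
  union : UnionClosed F
  star : StarClosed F
  nonempty : ∃ (X : Type) (_ : Finite X) (L : Language X), F X L ∧ ∃ w, w ∈ L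
  notPal : ¬ F (Option Bool) MarkedPal

/-- `K` is a bounded language: it is contained in `w_1* w_2* ... w_k*` for some words `w_i`. -/
def Bounded {X : Type} (K : Language X) : Prop :=
  ∃ ws : List (List X), K ≤ (ws.map fun w => ({w} : Language X)∗).prod

/-- The number of words `x` of length at most `n` for which there is a word `y` such that `x` is the
only word with `x y ∈ L` is at most `c (n + 1) ^ d`. -/
def PolyDetermined {X : Type} (L : Language X) : Prop :=
  ∃ c d : ℕ, ∀ n : ℕ,
    {x : List X | x.length ≤ n ∧ ∃ y, x ++ y ∈ L ∧ ∀ x', x' ++ y ∈ L → x' = x}.ncard ≤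
      c * (n + 1) ^ d

theorem bd_of_mem {X : Type} : ∀ (ws : List (List X)) (u : List X),
    u ∈ (ws.map fun w => ({w} : Language X)∗).prod → u ∈ Pool.Agent.Y502.PC.Bd ws := by
  intro ws
  induction ws with
  | nil =>
    intro u hu
    exact (Language.mem_one u).1 hu
  | cons w ws ih =>
    intro u hu
    rw [List.map_cons, List.prod_cons, Language.mem_mul] at hu
    obtain ⟨a, ha, b, hb, rfl⟩ := hu
    rw [Language.mem_kstar] at ha
    obtain ⟨L, rfl, hL⟩ := ha
    have h1 : L = List.replicate L.length w := by
      rw [List.eq_replicate_iff]
      exact ⟨rfl, fun y hy => hL y hy⟩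
    refine ⟨L.length, b, ih b hb, ?_⟩
    rw [Pool.Agent.H643R2.RunLem.rep, ← h1]

theorem thin {X : Type} {K : Language X} (hK : Bounded K) : Pool.Agent.Y502.PC.Thin K := by
  obtain ⟨ws, h⟩ := hK
  exact Pool.Agent.Y502.PC.thin_of_bounded K ws fun u hu => bd_of_mem ws u (h hu)

/-- the cone of the generator -/
def coneOf {A : Type} (K : Language A) : Family :=
  fun _ _ N => InCone (Pool.Agent.Y502.PC.Lg K) N

theorem small {A : Type} [Finite A] (K : Language A) (hK : Bounded K) : Small (coneOf K) := by
  have := Fintype.ofFinite A
  refine ⟨?_, ?_, ?_, ?_, ?_, ?_, ?_, ?_⟩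
  · intro X Y _ _ L N h h'
    have := Fintype.ofFinite Y
    exact InCone.trans h h'
  · exact ⟨Pool.Agent.Y502.PC.Sk A, inferInstance, Pool.Agent.Y502.PC.Lg K,
      Pool.Agent.Y502.PC.inCone_refl _, fun G hG hL Y _ N h => hG _ _ _ _ hL h⟩
  · intro X Y _ _ ι a b L _ _ _ _ h
    have := Fintype.ofFinite Y
    exact Pool.Agent.Y502.PC.cone_trans h ι a b
  · intro X _ L₁ L₂ h1 h2
    have := Fintype.ofFinite X
    have h3 := Pool.Agent.Y502.PC.cone_mul h1 h2
    have e : L₁ * L₂ = {x | ∃ a ∈ L₁, ∃ b ∈ L₂, x = a ++ b} := by
      ext x
      rw [Language.mem_mul]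
      constructor
      · rintro ⟨a, ha, b, hb, rfl⟩; exact ⟨a, ha, b, hb, rfl⟩
      · rintro ⟨a, ha, b, hb, rfl⟩; exact ⟨a, ha, b, hb, rfl⟩
    show InCone _ (L₁ * L₂)
    rw [e]; exact h3
  · intro X _ L₁ L₂ h1 h2
    have := Fintype.ofFinite X
    exact Pool.Agent.Y502.PC.cone_union h1 h2
  · intro X _ L h
    have := Fintype.ofFinite X
    have h3 := Pool.Agent.Y502.PC.cone_star h
    have e : L∗ = {x | ∃ M : List (List X), (∀ a ∈ M, a ∈ L) ∧ x = M.flatten} := by
      ext x
      rw [Language.mem_kstar]
      constructor
      · rintro ⟨M, rfl, hM⟩; exact ⟨M, hM, rfl⟩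
      · rintro ⟨M, hM, rfl⟩; exact ⟨M, rfl, hM⟩
    show InCone _ (L∗)
    rw [e]; exact h3
  · exact ⟨_, inferInstance, _, Pool.Agent.Y502.PC.inCone_refl (Pool.Agent.Y502.PC.Lg K), [],
      Pool.Agent.Y502.PC.nil_mem_Lg K⟩
  · exact Pool.Agent.Y502.PC.not_inCone_Pal K (thin hK)

theorem polyDetermined {A Y : Type} [Finite A] [Finite Y] (K : Language A) (hK : Bounded K)
    (L : Language Y) (h : InCone (Pool.Agent.Y502.PC.Lg K) L) : PolyDetermined L := by
  obtain ⟨c, d, hcd⟩ := Pool.Agent.Y502.PC.det_PB K (thin hK) L h
  refine ⟨c, d, fun n => ?_⟩
  obtain ⟨S, hS, hS'⟩ := hcd n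
  refine le_trans ?_ hS
  rw [← Set.ncard_coe_finset S]
  exact Set.ncard_le_ncard (fun x hx => hS' x hx.2 hx.1) S.finite_toSet

/-- the unary language of a set of numbers -/
def un (N : Set ℕ) : Language Unit := {u | u.length ∈ N}

theorem bounded_un (N : Set ℕ) : Bounded (un N) := by
  refine ⟨[[()]], fun u _ => ?_⟩
  have e : (([[()]] : List (List Unit)).map fun w => ({w} : Language Unit)∗).prod =
      ({[()]} : Language Unit)∗ := by
    rw [List.map_cons, List.map_nil, List.prod_cons, List.prod_nil, mul_one]
  rw [e]
  show u ∈ (({[()]} : Language Unit)∗ : Language Unit)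
  rw [Language.mem_kstar]
  refine ⟨List.replicate u.length [()], ?_, fun y hy => List.eq_of_mem_replicate hy⟩
  have key : ∀ u : List Unit, u = (List.replicate u.length [()]).flatten := by
    intro u
    induction u with
    | nil => rfl
    | cons a u ih =>
      rw [List.length_cons, List.replicate_succ, List.flatten_cons, ← ih]
      rfl
  exact key u

theorem un_injective : Function.Injective un := by
  intro N N' h
  ext n
  have h1 : List.replicate n () ∈ un N ↔ List.replicate n () ∈ un N' := by rw [h]
  have h2 : (List.replicate n ()).length ∈ N ↔ (List.replicate n ()).length ∈ N' := h1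
  rw [List.length_replicate] at h2
  exact h2

theorem uncountable : ¬ {F : Family | Small F}.Countable := by
  intro hc
  have h1 : (⋃ F ∈ {F : Family | Small F}, {N : Language Unit | F Unit N}).Countable := by
    refine hc.biUnion fun F hF => ?_
    obtain ⟨X, hX, L, hL, hmin⟩ := (hF : Small F).principal
    refine (Pool.Agent.Y502.PC.countable_cone (Y := Unit) L).mono fun N hN => ?_
    have := Fintype.ofFinite X
    refine hmin (fun Y _ N => InCone L N) ?_ (Pool.Agent.Y502.PC.inCone_refl L) Unit N hN
    intro X' Y' _ _ L' N' h h'
    have := Fintype.ofFinite Y'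
    exact InCone.trans h h'
  have h2 : (Set.range un).Countable := by
    refine h1.mono ?_
    rintro _ ⟨N, rfl⟩
    simp only [Set.mem_iUnion]
    exact ⟨coneOf (un N), small (un N) (bounded_un N), Pool.Agent.Y502.PC.inCone_self (un N)⟩
  have h3 : Countable (Set ℕ) := by
    have h4 : Countable (Set.range un) := h2
    exact (un_injective.codRestrict (s := Set.range un) fun N => ⟨N, rfl⟩).countable
  obtain ⟨f, hf⟩ := exists_injective_nat (Set ℕ)
  exact Function.cantor_injective f hf

/-- (1) The language of marked palindromes is context-free. (2) Every bounded language over a finite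
alphabet belongs to a principal translatable rational cone `F` which is closed under product, union
and star and does not contain the marked palindromes; in every language of `F` the number of the
words of length at most `n` which are determined by a word on their right is at most polynomial
in `n`. (3) There are uncountably many principal translatable rational cones which are closed under
product, union and star and do not contain the marked palindromes. -/
theorem result :
    MarkedPal.IsContextFree ∧
    (∀ (X : Type) [Finite X] (K : Language X), Bounded K →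
      ∃ F : Family, Small F ∧ F X K ∧
        ∀ (Y : Type) [Finite Y] (L : Language Y), F Y L → PolyDetermined L) ∧
    ¬ {F : Family | Small F}.Countable := by
  refine ⟨Pool.Agent.H643R2.Ead.Pal_cf, ?_, uncountable⟩
  intro X _ K hK
  have := Fintype.ofFinite X
  exact ⟨coneOf K, small K hK, Pool.Agent.Y502.PC.inCone_self K,
    fun Y _ L h => polyDetermined K hK L h⟩

end Pool.Agent.Results.MP_ead56d_lc.BoundedLanguages
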